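import Mathlib
import Pool.Agent.V5helper2.PC.Rec
import Pool.Agent.V5helper2.TR.Local

set_option autoImplicit false

/-!
The number of the elements of a closed finite set in terms of the number of parity changes: the recursion.
-/

namespace Pool.Agent.V5helper2.TR

open Finset Pool.Agent.H944.BX Pool.Agent.V5helper2.PC

variable {a b : ℤ}

theorem step_bd (ha : 3 ≤ a) (hao : a % 2 = 1) (hb : b % 2 = 1) {Z : Finset ℤ}
    (hclos : ∀ z ∈ Z, T a b z ∈ Z) {n κ r s G : ℕ} {c : ℤ}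
    (hinj : ∀ x ∈ Z, ∀ z ∈ Z, c ≤ x → c ≤ z → T a b x = T a b z → x = z)
    (hc : n * |b| ≤ c) (hc0 : 0 < c)
    (hn : ∀ x ∈ Z, ∀ x' ∈ Z, x' - x < 2 ^ n) (hn1 : 1 ≤ n)
    (he : (Z.filter fun x => 0 < x ∧ x < c).card ≤ G) (hκ : 2 * (n * |b|) ≤ 2 ^ κ)
    (hs : κ ≤ s) (hr1 : s + 1 ≤ r) (hr2 : r + κ ≤ 2 * s + 1) (hG : 1 ≤ G) (hB : Bd Z c s G) :
    Bd Z c r (G * (9 * (n + 1) ^ 2 * ((chg Z).card + 1))) := by
  classical
  have hb1 : 1 ≤ |b| := Int.one_le_abs (by rintro rfl; norm_num at hb)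
  have hnb : (1 : ℤ) ≤ n * |b| := by
    have : (1 : ℤ) ≤ n := by exact_mod_cast hn1
    nlinarith
  have h2κs : (2 : ℤ) ^ κ ≤ 2 ^ s := pow_le_pow_right₀ (by norm_num) hs
  intro u hu hru
  obtain ⟨d, hd⟩ : ∃ d, r = s + 1 + d := ⟨r - (s + 1), by omega⟩
  have hR0 : (0 : ℤ) < 2 ^ r := by positivity
  have hDR : (2 : ℤ) ^ r = 2 ^ d * 2 ^ (s + 1) := by rw [hd, pow_add]; ring
  have hD1 : (1 : ℤ) ≤ 2 ^ d := one_le_pow₀ (by norm_num)
  have hu0 : 0 < u := by omega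
  have h2s : (2 : ℤ) ^ s ≤ 2 ^ r := pow_le_pow_right₀ (by norm_num) (by omega)
  have hP : ∀ v, u ≤ v → (Z.filter fun x => v ≤ x ∧ x < v + 2 * (n * ((2 ^ d : ℕ) : ℤ) * |b|)).card ≤ G := by
    intro v hv
    refine le_trans (card_le_card ?_) (hB v (by omega) (by omega))
    intro x hx
    rw [mem_filter] at hx ⊢
    refine ⟨hx.1, hx.2.1, hx.2.2.trans_le ?_⟩
    have h1 : 2 * ((n : ℤ) * ((2 ^ d : ℕ) : ℤ) * |b|) ≤ 2 ^ s := by
      calc 2 * ((n : ℤ) * ((2 ^ d : ℕ) : ℤ) * |b|) = (2 * (n * |b|)) * 2 ^ d := by push_cast; ring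
        _ ≤ 2 ^ κ * 2 ^ d := mul_le_mul_of_nonneg_right hκ (by positivity)
        _ = 2 ^ (κ + d) := by rw [pow_add]
        _ ≤ 2 ^ s := pow_le_pow_right₀ (by norm_num) (by omega)
    linarith
  have hfinal : 1 + n * (n + 1) * (chg Z).card * (G + 1) + n * (n + 1) * (7 * G) ≤
      G * (9 * (n + 1) ^ 2 * ((chg Z).card + 1)) := by
    set A := (chg Z).card
    have h1 : n * (n + 1) * A * (G + 1) ≤ G * (2 * (n + 1) ^ 2 * A) := by
      have h2 : n * (n + 1) ≤ (n + 1) ^ 2 := by nlinarith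
      calc n * (n + 1) * A * (G + 1) ≤ (n + 1) ^ 2 * A * (2 * G) :=
            Nat.mul_le_mul (Nat.mul_le_mul h2 le_rfl) (by omega)
        _ = G * (2 * (n + 1) ^ 2 * A) := by ring
    have h2 : 1 + n * (n + 1) * (7 * G) ≤ G * (9 * (n + 1) ^ 2) := by
      have h3 : n * (n + 1) ≤ (n + 1) ^ 2 := by nlinarith
      have h4 : 1 ≤ (n + 1) ^ 2 * G := Nat.one_le_iff_ne_zero.2 (by positivity)
      calc 1 + n * (n + 1) * (7 * G) ≤ (n + 1) ^ 2 * G + (n + 1) ^ 2 * (7 * G) :=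
            add_le_add h4 (Nat.mul_le_mul h3 le_rfl)
        _ = G * (8 * (n + 1) ^ 2) := by ring
        _ ≤ G * (9 * (n + 1) ^ 2) := Nat.mul_le_mul_left _ (Nat.mul_le_mul_right _ (by norm_num))
    calc _ = (1 + n * (n + 1) * (7 * G)) + n * (n + 1) * A * (G + 1) := by ring
      _ ≤ G * (9 * (n + 1) ^ 2) + G * (2 * (n + 1) ^ 2 * A) := add_le_add h2 h1
      _ ≤ G * (9 * (n + 1) ^ 2) + G * (9 * (n + 1) ^ 2 * A) := by
          apply add_le_add_right
          apply Nat.mul_le_mul_left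
          apply Nat.mul_le_mul_right
          apply Nat.mul_le_mul_right
          norm_num
      _ = G * (9 * (n + 1) ^ 2 * (A + 1)) := by ring
  rcases le_or_gt u (2 ^ d * c) with hcase | hcase
  · refine le_trans (Pool.Agent.V5helper2.TR.local_level ha hao hb hclos (n := n) (D := 2 ^ d) (P := G)
      (Q := 7 * G) (y := c) (u := u) (R := 2 ^ r) (E := 2 * 2 ^ r) hinj hc hc0 hu hR0 hru (by push_cast; exact hcase)
      (by nlinarith) hn hP ?_) hfinal
    intro v hv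
    refine le_trans (card_le_card ?_) (he.trans (by omega))
    intro x hx
    rw [mem_filter] at hx ⊢
    exact ⟨hx.1, by omega, hx.2.2.2⟩
  · obtain ⟨y, hy⟩ : ∃ y, y = (u + 2 ^ d - 1) / 2 ^ d := ⟨_, rfl⟩
    have hd0 : (0 : ℤ) < 2 ^ d := by positivity
    have h8 := Int.emod_add_mul_ediv (u + 2 ^ d - 1) (2 ^ d)
    have h9 := Int.emod_nonneg (u + 2 ^ d - 1) hd0.ne'
    have h10 := Int.emod_lt_of_pos (u + 2 ^ d - 1) hd0
    rw [← hy] at h8
    have hy1 : u ≤ 2 ^ d * y := by omega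
    have hy2 : 2 ^ d * y < u + 2 ^ d := by omega
    have hcy : c < y := by
      have : 2 ^ d * c < 2 ^ d * y := by omega
      exact lt_of_mul_lt_mul_left this hd0.le
    have hyu : y ≤ u := by
      by_contra hcon
      push Not at hcon
      have h11 : 2 ^ d * (u + 1) ≤ 2 ^ d * y := mul_le_mul_of_nonneg_left (by omega) hd0.le
      nlinarith
    refine le_trans (Pool.Agent.V5helper2.TR.local_level ha hao hb hclos (n := n) (D := 2 ^ d) (P := G)
      (Q := 7 * G) (y := y) (u := u) (R := 2 ^ r) (E := 2 ^ (s + 2) + 2)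
      (fun x hx z hz h1 h2 => hinj x hx z hz (by omega) (by omega)) (by omega) (by omega) hyu hR0 hru
      (by push_cast; exact hy1) ?_ hn hP ?_) hfinal
    · calc 2 * y * 2 ^ r = 2 * (2 ^ d * y) * 2 ^ (s + 1) := by rw [hDR]; ring
        _ ≤ 2 * (u + 2 ^ d) * 2 ^ (s + 1) := by
            apply mul_le_mul_of_nonneg_right _ (by positivity)
            linarith
        _ = 2 ^ (s + 2) * u + 2 * 2 ^ r := by rw [hDR, pow_succ 2 (s + 1)]; ring
        _ ≤ (2 ^ (s + 2) + 2) * u := by linarith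
    · intro v hv
      have h2κ : (2 : ℤ) ≤ 2 ^ κ := by omega
      have hlen : (2 : ℤ) ^ (s + 2) + 2 + n * |b| ≤ 6 * 2 ^ s := by
        have : (2 : ℤ) ^ (s + 2) = 4 * 2 ^ s := by rw [pow_add]; ring
        omega
      have hvs : (2 : ℤ) ^ s ≤ v := by
        have h11 : 2 ^ d * 2 ^ (s + 1) ≤ 2 ^ d * (2 * v) := by
          rw [← hDR]
          have : 2 ^ d * y ≤ 2 ^ d * (2 * v) := mul_le_mul_of_nonneg_left hv hd0.le
          omega
        have h12 := le_of_mul_le_mul_left h11 hd0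
        rw [pow_succ] at h12
        omega
      refine le_trans (card_le_card ?_) ((six hc0 hB he hvs hlen).trans (by omega))
      intro x hx
      rw [mem_filter] at hx ⊢
      exact ⟨hx.1, hx.2.1, hx.2.2.1⟩

theorem all_bd (ha : 3 ≤ a) (hao : a % 2 = 1) (hb : b % 2 = 1) {Z : Finset ℤ}
    (hclos : ∀ z ∈ Z, T a b z ∈ Z) {n κ : ℕ} {c : ℤ}
    (hinj : ∀ x ∈ Z, ∀ z ∈ Z, c ≤ x → c ≤ z → T a b x = T a b z → x = z)
    (hc : n * |b| ≤ c) (hc0 : 0 < c)
    (hn : ∀ x ∈ Z, ∀ x' ∈ Z, x' - x < 2 ^ n) (hn1 : 1 ≤ n)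
    (he : (Z.filter fun x => 0 < x ∧ x < c).card ≤ 2 ^ (κ + 1)) (hκ : 2 * (n * |b|) ≤ 2 ^ κ)
    (j : ℕ) : ∀ r, r + 1 ≤ κ + 2 ^ (j + 1) →
      Bd Z c r (2 ^ (κ + 1) * (9 * (n + 1) ^ 2 * ((chg Z).card + 1)) ^ j) := by
  classical
  set K := 9 * (n + 1) ^ 2 * ((chg Z).card + 1) with hK
  have hK1 : 1 ≤ K := Nat.one_le_iff_ne_zero.2 (by positivity)
  induction j with
  | zero =>
    intro r hr u _ _
    rw [pow_zero, mul_one]
    have h1 : (Z.filter fun x => u ≤ x ∧ x < u + 2 ^ r) ⊆ Finset.Ico u (u + 2 ^ r) := by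
      intro x hx
      rw [mem_filter] at hx
      exact Finset.mem_Ico.2 hx.2
    refine (card_le_card h1).trans ?_
    rw [Int.card_Ico]
    have h2 : (u + 2 ^ r - u).toNat = 2 ^ r := by
      have : u + 2 ^ r - u = ((2 ^ r : ℕ) : ℤ) := by push_cast; ring
      rw [this, Int.toNat_natCast]
    rw [h2]
    exact Nat.pow_le_pow_right (by norm_num) (by omega)
  | succ j ih =>
    intro r hr
    set G := 2 ^ (κ + 1) * K ^ j with hG
    have hGpos : 1 ≤ G := Nat.one_le_iff_ne_zero.2 (by positivity)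
    have heG : (Z.filter fun x => 0 < x ∧ x < c).card ≤ G := he.trans (Nat.le_mul_of_pos_right _ (by positivity))
    have e : 2 ^ (κ + 1) * K ^ (j + 1) = G * K := by rw [hG, pow_succ]; ring
    rw [e]
    by_cases h : r + 1 ≤ κ + 2 ^ (j + 1)
    · intro u h1 h2
      exact (ih r h u h1 h2).trans (Nat.le_mul_of_pos_right _ hK1)
    · have h2j : 2 ≤ 2 ^ (j + 1) := by rw [pow_succ]; have := Nat.one_le_two_pow (n := j); omega
      obtain ⟨s, hs⟩ : ∃ s, s + 1 = κ + 2 ^ (j + 1) := ⟨κ + 2 ^ (j + 1) - 1, by omega⟩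
      have hB := ih s hs.le
      have h4 : 2 ^ (j + 1 + 1) = 2 * 2 ^ (j + 1) := by rw [pow_succ]; ring
      exact step_bd ha hao hb hclos hinj hc hc0 hn hn1 heG hκ (by omega) (by omega) (by omega) hGpos hB

/-- the number of the positive elements -/
theorem positive' (ha : 3 ≤ a) (hao : a % 2 = 1) (hb : b % 2 = 1) {Z : Finset ℤ}
    (hclos : ∀ z ∈ Z, T a b z ∈ Z) {n κ H : ℕ} {c : ℤ}
    (hinj : ∀ x ∈ Z, ∀ z ∈ Z, c ≤ x → c ≤ z → T a b x = T a b z → x = z)
    (hc : n * |b| ≤ c) (hc0 : 0 < c)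
    (hn : ∀ x ∈ Z, ∀ x' ∈ Z, x' - x < 2 ^ n) (hn1 : 1 ≤ n)
    (he : (Z.filter fun x => 0 < x ∧ x < c).card ≤ 2 ^ (κ + 1)) (hκ : 2 * (n * |b|) ≤ 2 ^ κ)
    (hH : ∀ x ∈ Z, x < 2 ^ (H + 1) * c) (hcn : 2 ^ (H + 1) * c < 2 ^ n) :
    (Z.filter fun x => 0 < x).card ≤ 2 ^ (κ + 1) +
      (H + 1) * (2 * (2 ^ (κ + 1) * (9 * (n + 1) ^ 2 * ((chg Z).card + 1)) ^ (Nat.log 2 n))) := by
  classical
  have hcov : (Z.filter fun x => 0 < x) ⊆ (Z.filter fun x => 0 < x ∧ x < c) ∪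
      (range (H + 1)).biUnion fun h => Z.filter fun x => 2 ^ h * c ≤ x ∧ x < 2 ^ (h + 1) * c := by
    intro x hx
    rw [mem_filter] at hx
    rw [mem_union]
    by_cases hxc : x < c
    · left
      rw [mem_filter]
      exact ⟨hx.1, hx.2, hxc⟩
    · right
      rw [mem_biUnion]
      have hex : ∃ h, x < 2 ^ (h + 1) * c := ⟨H, hH x hx.1⟩
      have h1 := Nat.find_spec hex
      set h := Nat.find hex with hh
      refine ⟨h, ?_, ?_⟩
      · rw [mem_range]
        have := Nat.find_min' hex (hH x hx.1)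
        omega
      · rw [mem_filter]
        refine ⟨hx.1, ?_, h1⟩
        rcases Nat.eq_zero_or_pos h with h0 | h0
        · rw [h0, pow_zero, one_mul]
          omega
        · obtain ⟨k, hk⟩ : ∃ k, h = k + 1 := ⟨h - 1, by omega⟩
          have := Nat.find_min hex (m := k) (by omega)
          rw [hk]
          omega
  refine (card_le_card hcov).trans ((card_union_le _ _).trans (add_le_add he ?_))
  refine card_biUnion_le.trans ?_
  set G := 2 ^ (κ + 1) * (9 * (n + 1) ^ 2 * ((chg Z).card + 1)) ^ (Nat.log 2 n) with hG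
  have : ∀ h ∈ range (H + 1), (Z.filter fun x => 2 ^ h * c ≤ x ∧ x < 2 ^ (h + 1) * c).card ≤ 2 * G := by
    intro h hh
    rw [mem_range] at hh
    obtain ⟨X, hX⟩ : ∃ X : ℕ, (X : ℤ) = 2 ^ h * c := ⟨(2 ^ h * c).toNat, Int.toNat_of_nonneg (by positivity)⟩
    have hXc : c ≤ X := by
      rw [hX]
      have : (1 : ℤ) ≤ 2 ^ h := one_le_pow₀ (by norm_num)
      nlinarith
    have hX0 : X ≠ 0 := by omega
    obtain ⟨r, hr⟩ : ∃ r, r = Nat.log 2 X := ⟨_, rfl⟩
    have hr1 : 2 ^ r ≤ X := by rw [hr]; exact Nat.pow_log_le_self 2 hX0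
    have hr2 : X < 2 ^ (r + 1) := by rw [hr]; exact Nat.lt_pow_succ_log_self (by norm_num) X
    have hXn : X < 2 ^ n := by
      have h1 : (X : ℤ) < 2 ^ n := by
        rw [hX]
        refine lt_of_le_of_lt ?_ hcn
        apply mul_le_mul_of_nonneg_right _ hc0.le
        exact pow_le_pow_right₀ (by norm_num) (by omega)
      exact_mod_cast h1
    have hrn : r < n := by
      have := hr1.trans_lt hXn
      exact (Nat.pow_lt_pow_iff_right (by norm_num)).1 this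
    have hBd := all_bd ha hao hb hclos hinj hc hc0 hn hn1 he hκ (Nat.log 2 n) r (by
      have := Nat.lt_pow_succ_log_self (b := 2) (by norm_num) n
      omega)
    have hr1' : (2 : ℤ) ^ r ≤ X := by exact_mod_cast hr1
    have hr2' : (X : ℤ) < 2 ^ (r + 1) := by exact_mod_cast hr2
    have h1 := hBd X hXc hr1'
    have h2r : (0 : ℤ) < 2 ^ r := by positivity
    have h2 := hBd (X + 2 ^ r) (by omega) (by omega)
    have hsub : (Z.filter fun x => 2 ^ h * c ≤ x ∧ x < 2 ^ (h + 1) * c) ⊆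
        (Z.filter fun x => (X : ℤ) ≤ x ∧ x < X + 2 ^ r) ∪
          (Z.filter fun x => (X : ℤ) + 2 ^ r ≤ x ∧ x < X + 2 ^ r + 2 ^ r) := by
      intro x hx
      rw [mem_filter, ← hX] at hx
      rw [mem_union, mem_filter, mem_filter]
      have h5 : (2 : ℤ) ^ (h + 1) * c = 2 * X := by rw [hX, pow_succ]; ring
      have h6 : (2 : ℤ) ^ (r + 1) = 2 * 2 ^ r := by rw [pow_succ]; ring
      rw [h5] at hx
      rw [h6] at hr2'
      by_cases h7 : x < X + 2 ^ r
      · exact Or.inl ⟨hx.1, hx.2.1, h7⟩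
      · exact Or.inr ⟨hx.1, by omega, by omega⟩
    refine (card_le_card hsub).trans ((card_union_le _ _).trans ?_)
    omega
  refine (sum_le_sum this).trans ?_
  rw [sum_const, card_range, smul_eq_mul]

end Pool.Agent.V5helper2.TR
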