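import Mathlib
import Pool.Agent.V5helper2.TR.Rec
import Pool.Agent.V5helper2.PC.Gen

set_option autoImplicit false

/-!
Parity changes in the sorted list of the terms of a trajectory of the `3x+1` map which reaches `1`.
-/

namespace Pool.Agent.V5helper2.TR

open Finset Pool.Agent.H944.BX Pool.Agent.V5helper2.PC

/-- the first `k + 1` terms of the trajectory -/
def tr (x : ℤ) (k : ℕ) : Finset ℤ := (range (k + 1)).image fun j => (T 3 1)^[j] x

theorem mem_tr {x z : ℤ} {k : ℕ} : z ∈ tr x k ↔ ∃ j, j ≤ k ∧ (T 3 1)^[j] x = z := by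
  unfold tr
  rw [mem_image]
  constructor
  · rintro ⟨j, hj, rfl⟩
    exact ⟨j, by rw [mem_range] at hj; omega, rfl⟩
  · rintro ⟨j, hj, rfl⟩
    exact ⟨j, by rw [mem_range]; omega, rfl⟩

theorem T_cases (x : ℤ) : (x % 2 = 0 ∧ 2 * T 3 1 x = x) ∨ (x % 2 = 1 ∧ 2 * T 3 1 x = 3 * x + 1) := by
  rcases Int.emod_two_eq_zero_or_one x with h | h
  · exact Or.inl ⟨h, two_mul_T_even (a := 3) (b := 1) (x := x) (by omega)⟩
  · exact Or.inr ⟨h, two_mul_T_odd (a := 3) (b := 1) (by norm_num) (by norm_num) h⟩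

theorem T_pos {x : ℤ} (hx : 0 < x) : 0 < T 3 1 x := by
  rcases T_cases x with ⟨h1, h2⟩ | ⟨h1, h2⟩ <;> omega

theorem iter_pos {x : ℤ} (hx : 0 < x) (j : ℕ) : 0 < (T 3 1)^[j] x := by
  induction j with
  | zero => exact hx
  | succ j ih => rw [Function.iterate_succ_apply']; exact T_pos ih

/-- crossing a level -/
theorem cross_up {x y : ℤ} {j : ℕ} (h1 : x ≤ y) (h2 : y < (T 3 1)^[j] x) :
    ∃ i < j, (T 3 1)^[i] x ≤ y ∧ y < (T 3 1)^[i + 1] x := by
  induction j with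
  | zero => simp only [Function.iterate_zero_apply] at h2; omega
  | succ j ih =>
    by_cases h : y < (T 3 1)^[j] x
    · obtain ⟨i, hi, h3⟩ := ih h
      exact ⟨i, by omega, h3⟩
    · exact ⟨j, by omega, by omega, h2⟩

theorem cross_down {x y : ℤ} {j : ℕ} (h1 : y < x) (h2 : (T 3 1)^[j] x ≤ y) :
    ∃ i < j, y < (T 3 1)^[i] x ∧ (T 3 1)^[i + 1] x ≤ y := by
  induction j with
  | zero => simp only [Function.iterate_zero_apply] at h2; omega
  | succ j ih =>
    by_cases h : (T 3 1)^[j] x ≤ y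
    · obtain ⟨i, hi, h3⟩ := ih h
      exact ⟨i, by omega, h3⟩
    · exact ⟨j, by omega, by omega, h2⟩

variable {x : ℤ} {k : ℕ}

theorem window {y z : ℤ} {k : ℕ} (hx : 0 < x) (h1 : (T 3 1)^[k] x = 1) (hxy : x ≤ y) (hz : z ∈ tr x k)
    (hyz : y * 2 < z) : ∃ p ∈ chg (tr x k), y < p.1 ∧ p.2 ≤ y * 2 := by
  obtain ⟨j, hj, rfl⟩ := mem_tr.1 hz
  -- an odd element
  obtain ⟨i, hi, ho1, ho2⟩ := cross_up (x := x) (y := y * 2) (j := j) (by omega) hyz
  have hod : (T 3 1)^[i] x % 2 = 1 ∧ y < (T 3 1)^[i] x := by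
    rw [Function.iterate_succ_apply'] at ho2
    rcases T_cases ((T 3 1)^[i] x) with ⟨h3, h4⟩ | ⟨h3, h4⟩
    · omega
    · exact ⟨h3, by omega⟩
  -- an even element
  obtain ⟨i', hi', he1, he2⟩ := cross_down (x := (T 3 1)^[j] x) (y := y) (j := k - j) (by omega) (by
    rw [← Function.iterate_add_apply, Nat.sub_add_cancel hj, h1]
    omega)
  have hev : (T 3 1)^[i'] ((T 3 1)^[j] x) % 2 = 0 ∧ (T 3 1)^[i'] ((T 3 1)^[j] x) ≤ y * 2 := by
    rw [Function.iterate_succ_apply'] at he2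
    rcases T_cases ((T 3 1)^[i'] ((T 3 1)^[j] x)) with ⟨h3, h4⟩ | ⟨h3, h4⟩
    · exact ⟨h3, by omega⟩
    · omega
  have hoZ : (T 3 1)^[i] x ∈ tr x k := mem_tr.2 ⟨i, by omega, rfl⟩
  have heZ : (T 3 1)^[i'] ((T 3 1)^[j] x) ∈ tr x k :=
    mem_tr.2 ⟨i' + j, by omega, by rw [Function.iterate_add_apply]⟩
  set o := (T 3 1)^[i] x with ho
  set e := (T 3 1)^[i'] ((T 3 1)^[j] x) with he
  rcases lt_trichotomy e o with h | h | h
  · obtain ⟨p, hp, h5, h6⟩ := exists_chg' heZ hoZ h (by omega)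
    exact ⟨p, hp, by omega, by omega⟩
  · omega
  · obtain ⟨p, hp, h5, h6⟩ := exists_chg' hoZ heZ h (by omega)
    exact ⟨p, hp, by omega, by omega⟩

theorem windows (hx : 0 < x) (h1 : (T 3 1)^[k] x = 1) (m : ℕ) (hM : ∃ z ∈ tr x k, x * 2 ^ m < z) :
    m ≤ ((chg (tr x k)).filter fun p => p.2 ≤ x * 2 ^ m).card := by
  classical
  induction m with
  | zero => exact Nat.zero_le _
  | succ m ih =>
    obtain ⟨z, hz, hz1⟩ := hM
    have hgm : (1 : ℤ) ≤ 2 ^ m := one_le_pow₀ (by norm_num)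
    have hcg : x ≤ x * 2 ^ m := le_mul_of_one_le_right (by omega) hgm
    have e : x * 2 ^ (m + 1) = x * 2 ^ m * 2 := by rw [pow_succ]; ring
    have h2 := ih ⟨z, hz, by omega⟩
    obtain ⟨p, hp, hp1, hp2⟩ := window hx h1 (y := x * 2 ^ m) hcg hz (by omega)
    rw [← e] at hp2
    have hsub : insert p ((chg (tr x k)).filter fun p => p.2 ≤ x * 2 ^ m) ⊆
        (chg (tr x k)).filter fun p => p.2 ≤ x * 2 ^ (m + 1) := by
      intro q hq
      rw [mem_insert] at hq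
      rw [mem_filter]
      rcases hq with rfl | hq
      · exact ⟨hp, hp2⟩
      · rw [mem_filter] at hq
        exact ⟨hq.1, by omega⟩
    have hnot : p ∉ (chg (tr x k)).filter fun p => p.2 ≤ x * 2 ^ m := by
      rw [mem_filter]
      rintro ⟨-, h⟩
      have := (mem_chg.1 hp).2.2.1
      omega
    have h3 := card_le_card hsub
    rw [card_insert_of_notMem hnot] at h3
    omega

/-- **The largest term.** -/
theorem max_tr (hx : 0 < x) (h1 : (T 3 1)^[k] x = 1) {z : ℤ} (hz : z ∈ tr x k) :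
    z ≤ x * 2 ^ ((chg (tr x k)).card + 1) := by
  by_contra hcon
  push Not at hcon
  have h2 := windows hx h1 ((chg (tr x k)).card + 1) ⟨z, hz, hcon⟩
  have h3 := card_filter_le (chg (tr x k)) (fun p => p.2 ≤ x * 2 ^ ((chg (tr x k)).card + 1))
  omega

/-- distinct terms before the first `1` -/
theorem distinct (h1 : (T 3 1)^[k] x = 1) (hmin : ∀ j < k, (T 3 1)^[j] x ≠ 1) {i j : ℕ} (hi : i ≤ k)
    (hj : j ≤ k) (h : (T 3 1)^[i] x = (T 3 1)^[j] x) : i = j := by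
  have key : ∀ i j : ℕ, i < j → j ≤ k → (T 3 1)^[i] x ≠ (T 3 1)^[j] x := by
    intro i j hij hj h
    apply hmin (k - j + i) (by omega)
    rw [Function.iterate_add_apply, h, ← Function.iterate_add_apply, Nat.sub_add_cancel hj, h1]
  rcases lt_trichotomy i j with h2 | h2 | h2
  · exact absurd h (key i j h2 hj)
  · exact h2
  · exact absurd h.symm (key j i h2 hi)

theorem card_tr (h1 : (T 3 1)^[k] x = 1) (hmin : ∀ j < k, (T 3 1)^[j] x ≠ 1) : (tr x k).card = k + 1 := by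
  unfold tr
  rw [card_image_of_injOn, card_range]
  intro i hi j hj h
  rw [coe_range, Set.mem_Iio] at hi hj
  exact distinct h1 hmin (by omega) (by omega) h

theorem two_mem (hk : 1 ≤ k) (h1 : (T 3 1)^[k] x = 1) : (2 : ℤ) ∈ tr x k := by
  obtain ⟨m, rfl⟩ : ∃ m, k = m + 1 := ⟨k - 1, by omega⟩
  rw [Function.iterate_succ_apply'] at h1
  refine mem_tr.2 ⟨m, by omega, ?_⟩
  rcases T_cases ((T 3 1)^[m] x) with ⟨h3, h4⟩ | ⟨h3, h4⟩ <;> omega

theorem clos_tr (hk : 1 ≤ k) (h1 : (T 3 1)^[k] x = 1) : ∀ z ∈ tr x k, T 3 1 z ∈ tr x k := by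
  intro z hz
  obtain ⟨j, hj, rfl⟩ := mem_tr.1 hz
  rcases Nat.lt_or_ge j k with h | h
  · exact mem_tr.2 ⟨j + 1, by omega, by rw [Function.iterate_succ_apply']⟩
  · have : j = k := by omega
    rw [this, h1]
    have : T 3 1 1 = 2 := by decide
    rw [this]
    exact two_mem hk h1

theorem inj_tr (h1 : (T 3 1)^[k] x = 1) (hmin : ∀ j < k, (T 3 1)^[j] x ≠ 1) :
    ∀ u ∈ tr x k, ∀ z ∈ tr x k, 2 ≤ u → 2 ≤ z → T 3 1 u = T 3 1 z → u = z := by
  intro u hu z hz hu2 hz2 h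
  obtain ⟨i, hi, rfl⟩ := mem_tr.1 hu
  obtain ⟨j, hj, rfl⟩ := mem_tr.1 hz
  have hik : i ≠ k := by rintro rfl; omega
  have hjk : j ≠ k := by rintro rfl; omega
  have h' : (T 3 1)^[i + 1] x = (T 3 1)^[j + 1] x := by
    rw [Function.iterate_succ_apply', Function.iterate_succ_apply']
    exact h
  have := distinct h1 hmin (by omega) (by omega) h'
  have hij : i = j := by omega
  rw [hij]

/-- **The number of the terms.** -/
theorem count_tr (hx : 0 < x) (hk : 1 ≤ k) (h1 : (T 3 1)^[k] x = 1) (hmin : ∀ j < k, (T 3 1)^[j] x ≠ 1)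
    {ν m : ℕ} (hν : x < 2 ^ ν) (hm : m = 2 * ((chg (tr x k)).card + ν) + 13) :
    (tr x k).card ≤ 64 * m ^ 2 * (9 * m ^ 2 * ((chg (tr x k)).card + 1)) ^ (Nat.log 2 m) := by
  classical
  set Z := tr x k with hZ
  set A := (chg Z).card with hA
  obtain ⟨n, hnd⟩ : ∃ n, n = 2 * (A + ν) + 12 := ⟨_, rfl⟩
  have hmn : m = n + 1 := by omega
  have hn0 : n ≠ 0 := by omega
  obtain ⟨κ, hκd⟩ : ∃ κ, κ = Nat.log 2 n + 2 := ⟨_, rfl⟩
  have hκ1 : 2 * n ≤ 2 ^ κ := by
    have h3 := Nat.lt_pow_succ_log_self (b := 2) (by norm_num) n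
    have h2 : 2 ^ κ = 2 * 2 ^ (Nat.log 2 n + 1) := by rw [hκd, pow_succ]; ring
    rw [h2]
    exact Nat.mul_le_mul_left _ h3.le
  have hκ2 : 2 ^ (κ + 1) ≤ 8 * n := by
    have h3 := Nat.pow_log_le_self 2 hn0
    have h2 : 2 ^ (κ + 1) = 8 * 2 ^ (Nat.log 2 n) := by rw [hκd, pow_add, pow_add]; ring
    rw [h2]
    exact Nat.mul_le_mul_left _ h3
  have hκ3 : n ≤ 2 ^ (κ + 1) := by
    rw [pow_succ]
    omega
  have hpos : ∀ z ∈ Z, 0 < z := by
    intro z hz
    obtain ⟨j, -, rfl⟩ := mem_tr.1 hz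
    exact iter_pos hx j
  have hmax : ∀ z ∈ Z, z < 2 ^ (A + ν + 1) := by
    intro z hz
    have h3 := max_tr hx h1 hz
    have h4 : x * 2 ^ (A + 1) < 2 ^ ν * 2 ^ (A + 1) := mul_lt_mul_of_pos_right hν (by positivity)
    rw [← pow_add] at h4
    have h5 : ν + (A + 1) = A + ν + 1 := by omega
    rw [h5] at h4
    exact h3.trans_lt h4
  have hn2 : (2 : ℤ) ^ (A + ν + 1) ≤ 2 ^ n := pow_le_pow_right₀ (by norm_num) (by omega)
  have hdiff : ∀ u ∈ Z, ∀ u' ∈ Z, u' - u < 2 ^ n := by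
    intro u hu u' hu'
    have h3 := hmax u' hu'
    have h4 := hpos u hu
    omega
  have hnZ : (n : ℤ) = 2 * ((A : ℤ) + ν) + 12 := by rw [hnd]; push_cast; ring
  have hcn : (2 : ℤ) ^ (A + ν + 1 + 1) * n < 2 ^ n := by
    have h3 : n < 2 ^ (A + ν + 5) := by
      have h4 : A + ν < 2 ^ (A + ν) := Nat.lt_two_pow_self
      rw [pow_add]
      omega
    have h4 : (n : ℤ) < 2 ^ (A + ν + 5) := by exact_mod_cast h3
    calc (2 : ℤ) ^ (A + ν + 1 + 1) * n < 2 ^ (A + ν + 1 + 1) * 2 ^ (A + ν + 5) :=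
          mul_lt_mul_of_pos_left h4 (by positivity)
      _ = 2 ^ (A + ν + 1 + 1 + (A + ν + 5)) := (pow_add _ _ _).symm
      _ ≤ 2 ^ n := pow_le_pow_right₀ (by norm_num) (by omega)
  have hmain := positive' (a := 3) (b := 1) (by norm_num) (by norm_num) (by norm_num) (Z := Z) (clos_tr hk h1)
    (n := n) (κ := κ) (H := A + ν + 1) (c := n)
    (fun u hu z hz h3 h4 h5 => inj_tr h1 hmin u hu z hz (by omega) (by omega) h5)
    (by rw [abs_one, mul_one]) (by omega) hdiff (by omega) (by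
      refine le_trans ?_ hκ3
      have h4 : (Z.filter fun z => 0 < z ∧ z < (n : ℤ)) ⊆ Finset.Ioo 0 (n : ℤ) := by
        intro y hy
        rw [mem_filter] at hy
        exact Finset.mem_Ioo.2 hy.2
      refine (card_le_card h4).trans ?_
      rw [Int.card_Ioo]
      omega) (by
      rw [abs_one, mul_one]
      exact_mod_cast hκ1) (by
      intro z hz
      have h3 := hmax z hz
      have h4 : (2 : ℤ) ^ (A + ν + 1) ≤ 2 ^ (A + ν + 1 + 1) * n := by
        rw [pow_succ 2 (A + ν + 1)]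
        have h5 : (0 : ℤ) < 2 ^ (A + ν + 1) := by positivity
        have h6 : (1 : ℤ) ≤ n := by omega
        nlinarith
      omega) hcn
  have hfilt : (Z.filter fun z => 0 < z) = Z := filter_true_of_mem hpos
  rw [hfilt, ← hA] at hmain
  set P := (9 * (n + 1) ^ 2 * (A + 1)) ^ (Nat.log 2 n) with hP
  have hP1 : 1 ≤ P := Nat.one_le_iff_ne_zero.2 (by positivity)
  have h2 : 2 ^ (κ + 1) + (A + ν + 1 + 1) * (2 * (2 ^ (κ + 1) * P)) ≤ 24 * (n * n * P) := by
    have h3 : 2 ^ (κ + 1) ≤ 8 * (n * n * P) := by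
      refine hκ2.trans (Nat.mul_le_mul_left _ ?_)
      calc n = n * 1 * 1 := by ring
        _ ≤ n * n * P := Nat.mul_le_mul (Nat.mul_le_mul le_rfl (by omega)) hP1
    have h4 : (A + ν + 1 + 1) * (2 * (2 ^ (κ + 1) * P)) ≤ 16 * (n * n * P) := by
      calc (A + ν + 1 + 1) * (2 * (2 ^ (κ + 1) * P)) ≤ n * (2 * (8 * n * P)) :=
            Nat.mul_le_mul (by omega) (Nat.mul_le_mul le_rfl (Nat.mul_le_mul hκ2 le_rfl))
        _ = 16 * (n * n * P) := by ring
    omega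
  have h3 : n * n * P ≤ m ^ 2 * (9 * m ^ 2 * (A + 1)) ^ (Nat.log 2 m) := by
    rw [hmn]
    have h5 : n * n ≤ (n + 1) ^ 2 := by nlinarith
    have h6 : P ≤ (9 * (n + 1) ^ 2 * (A + 1)) ^ (Nat.log 2 (n + 1)) := by
      rw [hP]
      apply Nat.pow_le_pow_right (by positivity)
      exact Nat.log_mono_right (by omega)
    exact Nat.mul_le_mul h5 h6
  have h4 : 64 * m ^ 2 * (9 * m ^ 2 * (A + 1)) ^ (Nat.log 2 m) =
      64 * (m ^ 2 * (9 * m ^ 2 * (A + 1)) ^ (Nat.log 2 m)) := by ring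
  rw [h4]
  omega

/-- The logarithmic form. -/
theorem real_of_count {L m : ℕ} (hL : 1 ≤ L) (hm : 9 ≤ m)
    (h0 : L ≤ 128 * m ^ 2 * (9 * m ^ 3) ^ (Nat.log 2 m)) : Real.log L ≤ 5 * (1 + Real.log m) ^ 2 := by
  set w := Real.log m with hw
  have hm9 : (9 : ℝ) ≤ m := by exact_mod_cast hm
  have hw0 : 0 < w := Real.log_pos (by linarith)
  have h1 : Real.log L ≤ Real.log (128 * (m : ℝ) ^ 2 * (9 * (m : ℝ) ^ 3) ^ (Nat.log 2 m)) := by
    apply Real.log_le_log (by exact_mod_cast hL)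
    exact_mod_cast h0
  have hmpos : (0 : ℝ) < m := by linarith
  rw [Real.log_mul (by positivity) (by positivity), Real.log_mul (by positivity) (by positivity),
    Real.log_pow, Real.log_pow, Real.log_mul (by positivity) (by positivity), Real.log_pow, ← hw] at h1
  have l2 := Real.log_two_gt_d9
  have l2' := Real.log_two_lt_d9
  have h64 : Real.log 128 ≤ 4.9 := by
    rw [show (128 : ℝ) = 2 ^ 7 by norm_num, Real.log_pow]
    push_cast
    linarith
  have h9 : Real.log 9 ≤ 2.8 := by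
    have : Real.log 9 ≤ Real.log 16 := Real.log_le_log (by norm_num) (by norm_num)
    rw [show (16 : ℝ) = 2 ^ 4 by norm_num, Real.log_pow] at this
    push_cast at this
    linarith
  have hJ : (Nat.log 2 m : ℝ) * Real.log 2 ≤ w := by
    have h2 : (2 : ℝ) ^ (Nat.log 2 m) ≤ m := by
      have := Nat.pow_log_le_self 2 (show m ≠ 0 by omega)
      exact_mod_cast this
    have h3 := Real.log_le_log (by positivity) h2
    rw [Real.log_pow] at h3
    exact h3
  have hJ0 : (0 : ℝ) ≤ Nat.log 2 m := Nat.cast_nonneg _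
  have hw2 : 2.19 ≤ w := by
    have : Real.log 9 ≤ w := Real.log_le_log (by norm_num) hm9
    have h8 : Real.log 9 = 2 * Real.log 3 := by
      rw [show (9 : ℝ) = 3 ^ 2 by norm_num, Real.log_pow]
      push_cast
      ring
    have h7 : (1.0986 : ℝ) - 0.002 ≤ Real.log 3 := by
      have h5 : (3 : ℝ) ^ 12 ≥ 2 ^ 19 := by norm_num
      have h6 := Real.log_le_log (by positivity) h5
      rw [Real.log_pow, Real.log_pow] at h6
      push_cast at h6
      linarith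
    linarith
  push_cast at h1
  have hJ2 : (Nat.log 2 m : ℝ) ≤ 1.4427 * w := by nlinarith
  have h3 : (Nat.log 2 m : ℝ) * (Real.log 9 + 3 * w) ≤ 1.4427 * w * (2.8 + 3 * w) := by
    apply mul_le_mul hJ2 (by linarith) _ (by positivity)
    have : 0 ≤ Real.log 9 := Real.log_nonneg (by norm_num)
    linarith
  nlinarith

end Pool.Agent.V5helper2.TR
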