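import Mathlib
import Pool.Agent.V5helper2.TR.Traj

set_option autoImplicit false

/-!
Monotonicity of the number of parity changes; Collatz trajectories.
-/

namespace Pool.Agent.V5helper2.TR

open Finset Pool.Agent.H944.BX Pool.Agent.V5helper2.PC

/-- The number of parity changes is monotone. -/
theorem chg_mono {S S' : Finset ℤ} (h : S ⊆ S') : (chg S).card ≤ (chg S').card := by
  classical
  have key : ∀ q ∈ chg S, ∃ p ∈ chg S', q.1 ≤ p.1 ∧ p.2 ≤ q.2 := by
    intro q hq
    obtain ⟨h1, h2, h3, h4, h5⟩ := mem_chg.1 hq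
    exact exists_chg' (h h1) (h h2) h3 h5
  choose! f hf1 hf2 hf3 using key
  apply card_le_card_of_injOn f hf1
  intro q hq q' hq' he
  rw [mem_coe] at hq hq'
  have a1 := hf2 q hq
  have a2 := hf3 q hq
  have b1 := hf2 q' hq'
  have b2 := hf3 q' hq'
  rw [← he] at b1 b2
  have a3 := (mem_chg.1 (hf1 q hq)).2.2.1
  obtain ⟨h1, h2, h3, h4, h5⟩ := mem_chg.1 hq
  obtain ⟨g1, g2, g3, g4, g5⟩ := mem_chg.1 hq'
  have c1 := h4 q'.1 g1
  have c2 := h4 q'.2 g2
  have c3 := g4 q.1 h1
  have c4 := g4 q.2 h2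
  ext <;> omega

/-- the changes in a set of natural numbers -/
def changesN (S : Finset ℕ) : ℕ :=
  ((S ×ˢ S).filter fun p =>
    p.1 < p.2 ∧ (∀ z ∈ S, ¬ (p.1 < z ∧ z < p.2)) ∧ p.1 % 2 ≠ p.2 % 2).card

/-- the set of the integers -/
def cst' (S : Finset ℕ) : Finset ℤ := S.image fun n : ℕ => (n : ℤ)

theorem mem_cst' {S : Finset ℕ} {z : ℤ} : z ∈ cst' S ↔ ∃ n ∈ S, (n : ℤ) = z := by
  unfold cst'
  rw [mem_image]

theorem changesN_eq (S : Finset ℕ) : changesN S = (chg (cst' S)).card := by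
  classical
  unfold changesN
  apply card_bij (fun p _ => ((p.1 : ℤ), (p.2 : ℤ)))
  · rintro ⟨x, z⟩ hp
    rw [mem_filter, mem_product] at hp
    obtain ⟨⟨h1, h2⟩, h3, h4, h5⟩ := hp
    simp only at h1 h2 h3 h4 h5
    rw [mem_chg]
    refine ⟨mem_cst'.2 ⟨x, h1, rfl⟩, mem_cst'.2 ⟨z, h2, rfl⟩, by simpa using h3, ?_, ?_⟩
    · intro w hw hcon
      obtain ⟨v, hv, rfl⟩ := mem_cst'.1 hw
      simp only at hcon
      exact h4 v hv ⟨by exact_mod_cast hcon.1, by exact_mod_cast hcon.2⟩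
    · simp only
      omega
  · rintro ⟨x, z⟩ _ ⟨x', z'⟩ _ h
    simp only [Prod.mk.injEq, Nat.cast_inj] at h
    rw [h.1, h.2]
  · rintro ⟨x, z⟩ hp
    rw [mem_chg] at hp
    obtain ⟨h1, h2, h3, h4, h5⟩ := hp
    simp only at h1 h2 h3 h4 h5
    obtain ⟨x, hx, rfl⟩ := mem_cst'.1 h1
    obtain ⟨z, hz, rfl⟩ := mem_cst'.1 h2
    refine ⟨(x, z), ?_, rfl⟩
    rw [mem_filter, mem_product]
    refine ⟨⟨hx, hz⟩, by simpa using h3, ?_, ?_⟩
    · intro w hw hcon
      exact h4 w (mem_cst'.2 ⟨w, hw, rfl⟩) ⟨by simpa using hcon.1, by simpa using hcon.2⟩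
    · simp only
      omega

/-- the Collatz function -/
def C (n : ℕ) : ℕ := if n % 2 = 0 then n / 2 else 3 * n + 1

theorem C_even {n : ℕ} (h : n % 2 = 0) : C n = n / 2 := if_pos h

theorem C_odd {n : ℕ} (h : n % 2 = 1) : C n = 3 * n + 1 := if_neg (by omega)

/-- the total stopping time of `n` is `l` -/
def HasTime (n l : ℕ) : Prop := C^[l] n = 1 ∧ ∀ j, j < l → C^[j] n ≠ 1

theorem hasTime_iff (n l : ℕ) (hl : 1 ≤ l) (h : HasTime n l) : n ≠ 1 ∧ HasTime (C n) (l - 1) := by
  obtain ⟨h1, h2⟩ := h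
  refine ⟨h2 0 (by omega), ?_, fun j hj => ?_⟩
  · rw [← Function.iterate_succ_apply, Nat.succ_eq_add_one, Nat.sub_add_cancel hl]
    exact h1
  · rw [← Function.iterate_succ_apply]
    exact h2 (j + 1) (by omega)

/-- from the Collatz function to the `3x+1` function -/
theorem accel : ∀ l n : ℕ, HasTime n l → ∃ k, (T 3 1)^[k] (n : ℤ) = 1 ∧
    (∀ j < k, (T 3 1)^[j] (n : ℤ) ≠ 1) ∧ l ≤ 2 * k ∧ k ≤ l ∧
    ∀ j ≤ k, ∃ i ≤ l, (T 3 1)^[j] (n : ℤ) = ((C^[i] n : ℕ) : ℤ) := by
  intro l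
  induction l using Nat.strong_induction_on with
  | _ l ih =>
    intro n hn
    rcases Nat.eq_zero_or_pos l with h0 | h0
    · subst h0
      have h1 : n = 1 := hn.1
      refine ⟨0, by rw [h1]; rfl, by intro j hj; omega, le_rfl, le_rfl, ?_⟩
      intro j hj
      have : j = 0 := by omega
      subst this
      exact ⟨0, le_rfl, rfl⟩
    · obtain ⟨hn1, hC⟩ := hasTime_iff n l h0 hn
      rcases Nat.mod_two_eq_zero_or_one n with hpar | hpar
      · have hCn : C n = n / 2 := by unfold C; rw [if_pos hpar]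
        have hT : T 3 1 (n : ℤ) = ((n / 2 : ℕ) : ℤ) := by unfold T; rw [if_pos (by omega)]; omega
        rw [hCn] at hC
        obtain ⟨k, h1, h2, h3, h3', h4⟩ := ih (l - 1) (by omega) (n / 2) hC
        refine ⟨k + 1, ?_, ?_, by omega, by omega, ?_⟩
        · rw [Function.iterate_succ_apply, hT]; exact h1
        · intro j hj
          rcases Nat.eq_zero_or_pos j with hj0 | hj0
          · subst hj0
            intro h5
            apply hn1
            rw [Function.iterate_zero_apply] at h5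
            exact_mod_cast h5
          · obtain ⟨j', rfl⟩ : ∃ j', j = j' + 1 := ⟨j - 1, by omega⟩
            rw [Function.iterate_succ_apply, hT]
            exact h2 j' (by omega)
        · intro j hj
          rcases Nat.eq_zero_or_pos j with hj0 | hj0
          · subst hj0
            exact ⟨0, by omega, rfl⟩
          · obtain ⟨j', rfl⟩ : ∃ j', j = j' + 1 := ⟨j - 1, by omega⟩
            obtain ⟨i, hi, h5⟩ := h4 j' (by omega)
            refine ⟨i + 1, by omega, ?_⟩
            rw [Function.iterate_succ_apply, hT, Function.iterate_succ_apply, hCn]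
            exact h5
      · have hCn : C n = 3 * n + 1 := by unfold C; rw [if_neg (by omega)]
        have hCC : C (3 * n + 1) = (3 * n + 1) / 2 := by unfold C; rw [if_pos (by omega)]
        have hT : T 3 1 (n : ℤ) = (((3 * n + 1) / 2 : ℕ) : ℤ) := by
          unfold T; rw [if_neg (by omega)]; omega
        rw [hCn] at hC
        have hl2 : 1 ≤ l - 1 := by
          by_contra hcon
          have h5 : l - 1 = 0 := by omega
          rw [h5] at hC
          have h6 : 3 * n + 1 = 1 := hC.1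
          omega
        obtain ⟨-, hC2⟩ := hasTime_iff (3 * n + 1) (l - 1) hl2 hC
        rw [hCC] at hC2
        obtain ⟨k, h1, h2, h3, h3', h4⟩ := ih (l - 1 - 1) (by omega) _ hC2
        refine ⟨k + 1, ?_, ?_, by omega, by omega, ?_⟩
        · rw [Function.iterate_succ_apply, hT]; exact h1
        · intro j hj
          rcases Nat.eq_zero_or_pos j with hj0 | hj0
          · subst hj0
            intro h5
            apply hn1
            rw [Function.iterate_zero_apply] at h5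
            exact_mod_cast h5
          · obtain ⟨j', rfl⟩ : ∃ j', j = j' + 1 := ⟨j - 1, by omega⟩
            rw [Function.iterate_succ_apply, hT]
            exact h2 j' (by omega)
        · intro j hj
          rcases Nat.eq_zero_or_pos j with hj0 | hj0
          · subst hj0
            exact ⟨0, by omega, rfl⟩
          · obtain ⟨j', rfl⟩ : ∃ j', j = j' + 1 := ⟨j - 1, by omega⟩
            obtain ⟨i, hi, h5⟩ := h4 j' (by omega)
            refine ⟨i + 2, by omega, ?_⟩
            rw [Function.iterate_succ_apply, hT, Function.iterate_succ_apply, Function.iterate_succ_apply, hCn,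
              hCC]
            exact h5

/-- the terms of the Collatz trajectory -/
def terms (n l : ℕ) : Finset ℕ := (range (l + 1)).image fun j => C^[j] n

theorem mem_terms {n l m : ℕ} : m ∈ terms n l ↔ ∃ j ≤ l, C^[j] n = m := by
  unfold terms
  rw [mem_image]
  constructor
  · rintro ⟨j, hj, rfl⟩
    exact ⟨j, by rw [mem_range] at hj; omega, rfl⟩
  · rintro ⟨j, hj, rfl⟩
    exact ⟨j, by rw [mem_range]; omega, rfl⟩

/-- **The total stopping time.** -/
theorem time_le {n l ν : ℕ} (hn : 1 ≤ n) (h : HasTime n l) (hν : n < 2 ^ ν) :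
    Real.log l ≤ 5 * (1 + Real.log (2 * changesN (terms n l) + 2 * ν + 13)) ^ 2 := by
  obtain ⟨k, h1, h2, h3, h3', h4⟩ := accel l n h
  have hsub : tr (n : ℤ) k ⊆ cst' (terms n l) := by
    intro z hz
    obtain ⟨j, hj, rfl⟩ := mem_tr.1 hz
    obtain ⟨i, hi, h5⟩ := h4 j hj
    exact mem_cst'.2 ⟨C^[i] n, mem_terms.2 ⟨i, hi, rfl⟩, h5.symm⟩
  have hA := chg_mono hsub
  rw [← changesN_eq] at hA
  set A := changesN (terms n l) with hAd
  rcases Nat.eq_zero_or_pos l with h0 | h0
  · rw [h0, Nat.cast_zero, Real.log_zero]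
    positivity
  have hk : 1 ≤ k := by omega
  have hx : (0 : ℤ) < n := by exact_mod_cast hn
  have hcount := count_tr (x := (n : ℤ)) (k := k) hx hk h1 h2 (ν := ν)
    (m := 2 * ((chg (tr (n : ℤ) k)).card + ν) + 13) (by exact_mod_cast hν) rfl
  set A' := (chg (tr (n : ℤ) k)).card with hA'
  rw [card_tr h1 h2] at hcount
  have hle : l ≤ 128 * (2 * (A + ν) + 13) ^ 2 * (9 * (2 * (A + ν) + 13) ^ 3) ^ (Nat.log 2 (2 * (A + ν) + 13)) := by
    have hmm : 2 * (A' + ν) + 13 ≤ 2 * (A + ν) + 13 := by omega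
    have h5 : 64 * (2 * (A' + ν) + 13) ^ 2 * (9 * (2 * (A' + ν) + 13) ^ 2 * (A' + 1)) ^
        (Nat.log 2 (2 * (A' + ν) + 13)) ≤
        64 * (2 * (A + ν) + 13) ^ 2 * (9 * (2 * (A + ν) + 13) ^ 3) ^ (Nat.log 2 (2 * (A + ν) + 13)) := by
      apply Nat.mul_le_mul (Nat.mul_le_mul_left _ (Nat.pow_le_pow_left hmm 2))
      calc (9 * (2 * (A' + ν) + 13) ^ 2 * (A' + 1)) ^ (Nat.log 2 (2 * (A' + ν) + 13))
          ≤ (9 * (2 * (A + ν) + 13) ^ 3) ^ (Nat.log 2 (2 * (A' + ν) + 13)) := by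
            apply Nat.pow_le_pow_left
            calc 9 * (2 * (A' + ν) + 13) ^ 2 * (A' + 1) ≤ 9 * (2 * (A + ν) + 13) ^ 2 * (2 * (A + ν) + 13) :=
                  Nat.mul_le_mul (Nat.mul_le_mul_left _ (Nat.pow_le_pow_left hmm 2)) (by omega)
              _ = 9 * (2 * (A + ν) + 13) ^ 3 := by ring
        _ ≤ _ := Nat.pow_le_pow_right (by positivity) (Nat.log_mono_right hmm)
    have h6 : 128 * (2 * (A + ν) + 13) ^ 2 * (9 * (2 * (A + ν) + 13) ^ 3) ^ (Nat.log 2 (2 * (A + ν) + 13)) =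
      2 * (64 * (2 * (A + ν) + 13) ^ 2 * (9 * (2 * (A + ν) + 13) ^ 3) ^ (Nat.log 2 (2 * (A + ν) + 13))) := by
      ring
    rw [h6]
    omega
  have hreal := real_of_count (L := l) (m := 2 * (A + ν) + 13) h0 (by omega) hle
  have e : (((2 * (A + ν) + 13 : ℕ)) : ℝ) = 2 * A + 2 * ν + 13 := by push_cast; ring
  rw [e] at hreal
  exact hreal

/-- **The largest term.** -/
theorem max_le' {n l : ℕ} (hn : 1 ≤ n) (h : HasTime n l) {m : ℕ} (hm : m ∈ terms n l) :
    m ≤ 2 ^ (changesN (terms n l) + 2) * n := by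
  obtain ⟨k, h1, h2, h3, h3', h4⟩ := accel l n h
  have hsub : tr (n : ℤ) k ⊆ cst' (terms n l) := by
    intro z hz
    obtain ⟨j, hj, rfl⟩ := mem_tr.1 hz
    obtain ⟨i, hi, h5⟩ := h4 j hj
    exact mem_cst'.2 ⟨C^[i] n, mem_terms.2 ⟨i, hi, rfl⟩, h5.symm⟩
  have hA := chg_mono hsub
  rw [← changesN_eq] at hA
  set A := changesN (terms n l) with hAd
  have hx : (0 : ℤ) < n := by exact_mod_cast hn
  have hmax : ∀ z ∈ tr (n : ℤ) k, z ≤ n * 2 ^ (A + 1) := by
    intro z hz
    refine (max_tr hx h1 hz).trans (mul_le_mul_of_nonneg_left ?_ hx.le)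
    exact pow_le_pow_right₀ (by norm_num) (by omega)
  -- every term is a term of the accelerated trajectory or the double of one
  have key : ∀ i ≤ l, ∃ j ≤ k, ((C^[i] n : ℕ) : ℤ) = (T 3 1)^[j] (n : ℤ) ∨
      ((C^[i] n : ℕ) : ℤ) = 2 * (T 3 1)^[j] (n : ℤ) := by
    clear hsub hA hmax h4 h3 h3' hm hAd A
    intro i
    induction i with
    | zero => intro _; exact ⟨0, by omega, Or.inl rfl⟩
    | succ i ih =>
      intro hi
      obtain ⟨j, hj, h5 | h5⟩ := ih (by omega)
      · have hjk : j ≠ k := by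
          rintro rfl
          rw [h1] at h5
          exact h.2 i (by omega) (by exact_mod_cast h5)
        refine ⟨j + 1, by omega, ?_⟩
        rw [Function.iterate_succ_apply', Function.iterate_succ_apply', ← h5]
        rcases Nat.mod_two_eq_zero_or_one (C^[i] n) with hpar | hpar
        · left
          rw [C_even hpar]
          have h6 := two_mul_T_even (a := 3) (b := 1) (x := ((C^[i] n : ℕ) : ℤ)) (by omega)
          omega
        · right
          rw [C_odd hpar]
          have h6 := two_mul_T_odd (a := 3) (b := 1) (by norm_num) (by norm_num)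
            (x := ((C^[i] n : ℕ) : ℤ)) (by omega)
          rw [h6]
          push_cast
          ring
      · refine ⟨j, hj, Or.inl ?_⟩
        rw [Function.iterate_succ_apply', C_even (by omega)]
        push_cast
        omega
  obtain ⟨i, hi, rfl⟩ := mem_terms.1 hm
  obtain ⟨j, hj, h5⟩ := key i hi
  have h6 := hmax _ (mem_tr.2 ⟨j, hj, rfl⟩)
  have h7 : (0 : ℤ) < (T 3 1)^[j] (n : ℤ) := iter_pos hx j
  have h8 : ((C^[i] n : ℕ) : ℤ) ≤ 2 * (n * 2 ^ (A + 1)) := by
    rcases h5 with h5 | h5 <;> omega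
  have h9 : (2 : ℤ) * (n * 2 ^ (A + 1)) = 2 ^ (A + 2) * n := by rw [pow_succ 2 (A + 1)]; ring
  rw [h9] at h8
  exact_mod_cast h8

/-- **The exceptions.** -/
theorem exceptions : ∃ c : ℝ, 0 < c ∧ ∀ n l : ℕ, 1 ≤ n → HasTime n l → n < l →
    c * Real.exp (Real.sqrt (Real.log n / 5)) ≤ changesN (terms n l) + 1 := by
  obtain ⟨c, hc, hfin⟩ := final_real3 20 (by norm_num)
  refine ⟨c, hc, fun n l hn h hnl => ?_⟩
  have hn1 : (1 : ℝ) ≤ n := by exact_mod_cast hn
  have hl0 : 0 ≤ Real.log n := Real.log_nonneg hn1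
  set A := changesN (terms n l) with hA
  have hA0 : (0 : ℝ) ≤ A := Nat.cast_nonneg _
  have h1 := time_le hn h (ν := Nat.log 2 n + 1) (Nat.lt_pow_succ_log_self (by norm_num) n)
  rw [← hA] at h1
  have h2 : Real.log n ≤ Real.log l := Real.log_le_log (by linarith) (by exact_mod_cast hnl.le)
  have hν : ((Nat.log 2 n + 1 : ℕ) : ℝ) ≤ 1 + 3 / 2 * Real.log n := by
    have h3 := Nat.pow_log_le_self 2 (show n ≠ 0 by omega)
    have h4 : (2 : ℝ) ^ (Nat.log 2 n) ≤ n := by exact_mod_cast h3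
    have h5 := Real.log_le_log (by positivity) h4
    rw [Real.log_pow] at h5
    have l2 := Real.log_two_gt_d9
    have h6 : (0 : ℝ) ≤ Nat.log 2 n := Nat.cast_nonneg _
    push_cast
    nlinarith
  refine hfin (Real.log n) (A + 1) (2 * A + 2 * ((Nat.log 2 n + 1 : ℕ) : ℝ) + 13) hl0 (by linarith) ?_ ?_
    (h2.trans h1)
  · have : (0 : ℝ) ≤ ((Nat.log 2 n + 1 : ℕ) : ℝ) := Nat.cast_nonneg _
    linarith
  · nlinarith [sq_nonneg (Real.log n)]

end Pool.Agent.V5helper2.TR
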